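import Pool.Agent.Helper69.VX.St

/-!
# Project VX: the variance of the leftover functional for large `n`
-/

set_option autoImplicit false

namespace Pool.Agent.Helper72.VX

open Finset Filter Pool.Agent.Helper82.CN Pool.Agent.Helper11.PV Pool.Agent.Helper69.VX

theorem hFIV : StVAR → StALS → StFIV := by
  intro hVAR hALS p₀ p₁ h0 h01 h1
  obtain ⟨n₁, hn₁⟩ := hALS p₀ h0 (h01.trans h1)
  have hq : (0 : ℝ) < 1 - p₁ := by linarith
  set K : ℝ := 4 + 5 / (1 - p₁) ^ 2 + 2 / (p₀ * (1 - p₁)) with hK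
  have hK0 : 0 < K := by positivity
  refine ⟨8 * K, by positivity, max n₁ 3, ?_⟩
  intro n l p hn hp0 hp1
  have hn1 : n₁ ≤ n := le_trans (le_max_left _ _) hn
  have hn3 : 3 ≤ n := le_trans (le_max_right _ _) hn
  obtain ⟨N, rfl⟩ : ∃ N, n = N + 1 := ⟨n - 1, by omega⟩
  have hp : 0 < p := lt_of_lt_of_le h0 hp0
  have hp' : p < 1 := lt_of_le_of_lt hp1 h1
  have hE := hn₁ (N + 1) p hn1 hp0 hp'
  set E : ℝ := EE p (fun ω : Sym2 (Fin (N + 1)) → Bool => (al ω : ℝ) ^ 2) with hEdef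
  set x : ℝ := ((N + 1 : ℕ) : ℝ) with hx
  have hx3 : (3 : ℝ) ≤ x := by rw [hx]; exact_mod_cast hn3
  have hx0 : 0 < x := by linarith
  have hx1 : (1 : ℝ) ≤ x := by linarith
  have hL : 0 < Real.log x := Real.log_pos (by linarith)
  set s : ℝ := x ^ ((1 : ℝ) / 8) with hs
  have hs1 : 1 ≤ s := Real.one_le_rpow hx1 (by norm_num)
  have hs0 : 0 < s := by linarith
  have hlogs : Real.log s = Real.log x / 8 := by
    rw [hs, Real.log_rpow hx0]; ring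
  set M : ℕ := ⌈x ^ ((3 : ℝ) / 4)⌉₊ with hM
  have hM0 : x ^ ((3 : ℝ) / 4) ≤ (M : ℝ) := Nat.le_ceil _
  have h34 : (1 : ℝ) ≤ x ^ ((3 : ℝ) / 4) := Real.one_le_rpow hx1 (by norm_num)
  have hM1 : (M : ℝ) ≤ 2 * x ^ ((3 : ℝ) / 4) := by
    have h2 : (M : ℝ) < x ^ ((3 : ℝ) / 4) + 1 := Nat.ceil_lt_add_one (by positivity)
    linarith
  have hMnat : 1 ≤ M := by
    have h2 : (1 : ℝ) ≤ (M : ℝ) := h34.trans hM0
    exact_mod_cast h2
  have hV := hVAR p N l M s hp hp' hs1 hMnat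
  rw [← hEdef, ← hx, hlogs] at hV
  have hW : 0 < 1 + Real.log x / 8 := by positivity
  -- first term
  have t1 : (M : ℝ) * (1 + Real.log x / 8) ≤ 4 * x := by
    have h2 : Real.log x ≤ x ^ ((1 : ℝ) / 4) / (1 / 4) := Real.log_le_rpow_div hx0.le (by norm_num)
    have h3 : (1 : ℝ) ≤ x ^ ((1 : ℝ) / 4) := Real.one_le_rpow hx1 (by norm_num)
    have h4 : 1 + Real.log x / 8 ≤ 2 * x ^ ((1 : ℝ) / 4) := by
      have h5 : x ^ ((1 : ℝ) / 4) / (1 / 4) = 4 * x ^ ((1 : ℝ) / 4) := by ring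
      rw [h5] at h2
      linarith
    have h6 : x ^ ((3 : ℝ) / 4) * x ^ ((1 : ℝ) / 4) = x := by
      rw [← Real.rpow_add hx0]; norm_num
    calc (M : ℝ) * (1 + Real.log x / 8)
        ≤ (2 * x ^ ((3 : ℝ) / 4)) * (2 * x ^ ((1 : ℝ) / 4)) :=
          mul_le_mul hM1 h4 hW.le (by positivity)
      _ = 4 * (x ^ ((3 : ℝ) / 4) * x ^ ((1 : ℝ) / 4)) := by ring
      _ = 4 * x := by rw [h6]
  -- second term
  have hM2 : x ^ ((3 : ℝ) / 2) ≤ (M : ℝ) ^ 2 := by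
    have h2 : (x ^ ((3 : ℝ) / 4)) ^ 2 = x ^ ((3 : ℝ) / 2) := by
      rw [← Real.rpow_natCast, ← Real.rpow_mul hx0.le]; norm_num
    rw [← h2]
    exact pow_le_pow_left₀ (by positivity) hM0 2
  have t2 : s * x ^ 2 * E / ((1 - p) ^ 2 * (M : ℝ) ^ 2) ≤ 5 / (1 - p₁) ^ 2 * x := by
    have hqp : (1 - p₁) ^ 2 ≤ (1 - p) ^ 2 := pow_le_pow_left₀ hq.le (by linarith) 2
    have h2 : (1 - p₁) ^ 2 * x ^ ((3 : ℝ) / 2) ≤ (1 - p) ^ 2 * (M : ℝ) ^ 2 :=
      mul_le_mul hqp hM2 (by positivity) (by positivity)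
    have h3 : s * x ^ 2 * E ≤ 5 * x * x ^ ((3 : ℝ) / 2) := by
      have h4 : s * x ^ 2 * (5 * x ^ ((1 : ℝ) / 4)) = 5 * (x ^ ((1 : ℝ) / 8) * x ^ (2 : ℝ) *
          x ^ ((1 : ℝ) / 4)) := by
        rw [hs, Real.rpow_two]; ring
      have h5 : x ^ ((1 : ℝ) / 8) * x ^ (2 : ℝ) * x ^ ((1 : ℝ) / 4) = x ^ ((19 : ℝ) / 8) := by
        rw [← Real.rpow_add hx0, ← Real.rpow_add hx0]; norm_num
      have h6 : x * x ^ ((3 : ℝ) / 2) = x ^ ((5 : ℝ) / 2) := by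
        nth_rewrite 1 [← Real.rpow_one x]
        rw [← Real.rpow_add hx0]; norm_num
      have h7 : x ^ ((19 : ℝ) / 8) ≤ x ^ ((5 : ℝ) / 2) :=
        Real.rpow_le_rpow_of_exponent_le hx1 (by norm_num)
      calc s * x ^ 2 * E ≤ s * x ^ 2 * (5 * x ^ ((1 : ℝ) / 4)) :=
            mul_le_mul_of_nonneg_left hE (by positivity)
        _ = 5 * x ^ ((19 : ℝ) / 8) := by rw [h4, h5]
        _ ≤ 5 * x ^ ((5 : ℝ) / 2) := by linarith
        _ = 5 * x * x ^ ((3 : ℝ) / 2) := by rw [mul_assoc, h6]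
    have hden : 0 < (1 - p₁) ^ 2 * x ^ ((3 : ℝ) / 2) := by positivity
    calc s * x ^ 2 * E / ((1 - p) ^ 2 * (M : ℝ) ^ 2)
        ≤ (5 * x * x ^ ((3 : ℝ) / 2)) / ((1 - p) ^ 2 * (M : ℝ) ^ 2) :=
          div_le_div_of_nonneg_right h3 (by positivity)
      _ ≤ (5 * x * x ^ ((3 : ℝ) / 2)) / ((1 - p₁) ^ 2 * x ^ ((3 : ℝ) / 2)) :=
          div_le_div_of_nonneg_left (by positivity) hden h2
      _ = 5 / (1 - p₁) ^ 2 * x := by
          have : x ^ ((3 : ℝ) / 2) ≠ 0 := by positivity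
          field_simp
  -- third term
  have t3 : 2 * (N : ℝ) / (p * (1 - p)) ≤ 2 / (p₀ * (1 - p₁)) * x := by
    have hNx : (N : ℝ) ≤ x := by
      rw [hx]; push_cast; linarith
    have h2 : p₀ * (1 - p₁) ≤ p * (1 - p) := mul_le_mul hp0 (by linarith) hq.le hp.le
    have hden : 0 < p₀ * (1 - p₁) := by positivity
    calc 2 * (N : ℝ) / (p * (1 - p)) ≤ 2 * x / (p * (1 - p)) := by
          refine div_le_div_of_nonneg_right (by linarith) (mul_nonneg hp.le (by linarith))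
      _ ≤ 2 * x / (p₀ * (1 - p₁)) := div_le_div_of_nonneg_left (by positivity) hden h2
      _ = 2 / (p₀ * (1 - p₁)) * x := by ring
  have hsum : VV p (PH l : (Sym2 (Fin (N + 1)) → Bool) → ℝ) * (1 + Real.log x / 8) ≤ K * x := by
    rw [hK]
    nlinarith [hV, t1, t2, t3]
  have hfin : VV p (PH l : (Sym2 (Fin (N + 1)) → Bool) → ℝ) ≤ K * x / (1 + Real.log x / 8) :=
    (le_div_iff₀ hW).mpr hsum
  refine hfin.trans ?_
  calc K * x / (1 + Real.log x / 8) ≤ K * x / (Real.log x / 8) :=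
        div_le_div_of_nonneg_left (by positivity) (by positivity) (by linarith)
    _ = 8 * K * (x / Real.log x) := by field_simp

end Pool.Agent.Helper72.VX
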